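import Pool.Agent.Y522.Stm

/-!
# Palais' extension theorem (job SH-Ext)
-/

set_option autoImplicit false

open Set Filter Topology Metric Function MeasureTheory
open scoped Manifold ContDiff NNReal

noncomputable section

namespace Pool.Agent.Y784.SH

open Pool.Agent.Y522

variable {n : ℕ}

/-- A diffeomorphism of `ℝ^n`. -/
def Dif (n : ℕ) (D : E n → E n) : Prop := Bijective D ∧ ∀ x, LD n D x

theorem Dif.comp {f g : E n → E n} (hf : Dif n f) (hg : Dif n g) : Dif n (fun x => f (g x)) :=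
  ⟨hf.1.comp hg.1, fun x => (hf.2 (g x)).comp_fun (hg.2 x)⟩

theorem Dif.id : Dif n (fun x => x) := ⟨bijective_id, fun x => LD.id x⟩

theorem Dif.iterate {f : E n → E n} (hf : Dif n f) (N : ℕ) : Dif n (f^[N]) := by
  induction N with
  | zero => exact Dif.id
  | succ N ih =>
    rw [iterate_succ']
    exact hf.comp ih

theorem Dif.inv {f : E n → E n} (hf : Dif n f) :
    ∃ g : E n → E n, Dif n g ∧ (∀ x, g (f x) = x) ∧ ∀ x, f (g x) = x := by
  let e := Equiv.ofBijective f hf.1
  have h1 : ∀ x, e.symm (f x) = x := fun x => e.symm_apply_apply x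
  have h2 : ∀ x, f (e.symm x) = x := fun x => e.apply_symm_apply x
  exact ⟨e.symm, ⟨e.symm.bijective, fun y => LD.inverse_bij hf.1 hf.2 h1 y⟩, h1, h2⟩

/-- the key lemma: a small perturbation of the identity -/
theorem dif_of_lip {u : E n → E n} (hu : ContDiff ℝ ∞ u) {c : ℝ≥0} (hc : c < 1)
    (hl : LipschitzWith c u) : Dif n (fun x => x + u x) := by
  have happ : ApproximatesLinearOn (fun x => x + u x)
      ((ContinuousLinearEquiv.refl ℝ (E n) : E n ≃L[ℝ] E n) : E n →L[ℝ] E n) univ c := by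
    intro x _ y _
    have e : x + u x - (y + u y) -
        ((ContinuousLinearEquiv.refl ℝ (E n) : E n ≃L[ℝ] E n) : E n →L[ℝ] E n) (x - y) =
        u x - u y := by
      show x + u x - (y + u y) - (x - y) = u x - u y
      abel
    rw [e]
    exact hl.norm_sub_le x y
  have hbij : Bijective (fun x => x + u x) := by
    have hcc : Subsingleton (E n) ∨
        c < ‖((ContinuousLinearEquiv.refl ℝ (E n)).symm : E n →L[ℝ] E n)‖₊⁻¹ := by
      rcases subsingleton_or_nontrivial (E n) with h | h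
      · exact Or.inl h
      · right
        have h1 : ‖((ContinuousLinearEquiv.refl ℝ (E n)).symm : E n →L[ℝ] E n)‖₊ = 1 := by
          rw [← NNReal.coe_inj]
          exact ContinuousLinearMap.norm_id
        rw [h1, inv_one]
        exact hc
    exact (happ.toHomeomorph _ hcc).bijective
  refine ⟨hbij, fun x => ?_⟩
  have hn : ‖fderiv ℝ u x‖ < 1 := (norm_fderiv_le_of_lipschitz ℝ hl).trans_lt (by exact_mod_cast hc)
  have hn' : ‖-fderiv ℝ u x‖ < 1 := by rw [norm_neg]; exact hn
  refine LD_of_contDiffAt (Eventually.of_forall fun y => (contDiff_id.add hu).contDiffAt)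
    (ContinuousLinearEquiv.unitsEquiv ℝ (E n) (Units.oneSub (-fderiv ℝ u x) hn')) ?_
  have h1 : HasFDerivAt (fun x => x + u x) (ContinuousLinearMap.id ℝ (E n) + fderiv ℝ u x) x :=
    (hasFDerivAt_id x).add (hu.differentiable (by simp) x).hasFDerivAt
  refine h1.congr_fderiv ?_
  have h2 : ((Units.oneSub (-fderiv ℝ u x) hn' : (E n →L[ℝ] E n)ˣ) : E n →L[ℝ] E n) =
      1 - -fderiv ℝ u x := Units.val_oneSub _ _
  have h3 : ((ContinuousLinearEquiv.unitsEquiv ℝ (E n) (Units.oneSub (-fderiv ℝ u x) hn') :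
      E n ≃L[ℝ] E n) : E n →L[ℝ] E n) =
      ((Units.oneSub (-fderiv ℝ u x) hn' : (E n →L[ℝ] E n)ˣ) : E n →L[ℝ] E n) := by
    ext1 v
    rfl
  rw [h3, h2, sub_neg_eq_add]
  rfl

theorem bump_ex (n : ℕ) (R : ℝ) (hR : 0 < R) : ∃ u : E n → E n, ContDiff ℝ ∞ u ∧
    (∃ K : ℝ≥0, LipschitzWith K u) ∧ (∀ x, ‖x‖ ≤ R → u x = x) ∧
    ∀ x, R + 1 ≤ ‖x‖ → u x = 0 := by
  have hlt : R < R + 1 := by linarith
  set χ : ContDiffBump (0 : E n) := ⟨R, R + 1, hR, hlt⟩ with hχ
  have hus : ContDiff ℝ ∞ (fun x => χ x • x) := χ.contDiff.smul contDiff_id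
  have huc : HasCompactSupport (fun x => χ x • x) := χ.hasCompactSupport.smul_right
  refine ⟨fun x => χ x • x, hus, hus.lipschitzWith_of_hasCompactSupport huc (by simp),
    fun x hx => ?_, fun x hx => ?_⟩
  · show χ x • x = x
    rw [χ.one_of_mem_closedBall (by simpa using hx), one_smul]
  · show χ x • x = 0
    rw [χ.zero_of_le_dist (by simpa using hx), zero_smul]

theorem step_ex (n : ℕ) (R : ℝ) (hR : 0 < R) : ∃ (c : ℝ) (h : E n → E n), 0 < c ∧ c < 1 ∧
    Dif n h ∧ (∀ x, ‖x‖ ≤ R → h x = (1 - c) • x) ∧ ∀ x, R + 1 ≤ ‖x‖ → h x = x := by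
  obtain ⟨u, hu, ⟨K, hK⟩, hu1, hu2⟩ := bump_ex n R hR
  obtain ⟨c, hc0, hc1, hcK⟩ : ∃ c : ℝ, 0 < c ∧ c < 1 ∧ c * (K : ℝ) < 1 := by
    have hK0 : (0 : ℝ) ≤ K := K.2
    refine ⟨1 / (2 * (K + 1)), by positivity, ?_, ?_⟩
    · rw [div_lt_one (by positivity)]
      linarith
    · rw [div_mul_eq_mul_div, one_mul, div_lt_one (by positivity)]
      linarith
  have hl : LipschitzWith (Real.toNNReal (c * K)) (fun x => (-c) • u x) := by
    refine LipschitzWith.of_dist_le_mul fun x y => ?_
    have h1 : ((Real.toNNReal (c * K) : ℝ≥0) : ℝ) = c * K :=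
      Real.coe_toNNReal _ (mul_nonneg hc0.le (NNReal.coe_nonneg K))
    rw [dist_smul₀, norm_neg, Real.norm_of_nonneg hc0.le, h1, mul_assoc]
    exact mul_le_mul_of_nonneg_left (hK.dist_le_mul x y) hc0.le
  have hlt : Real.toNNReal (c * K) < 1 := Real.toNNReal_lt_one.2 hcK
  have hcu : ContDiff ℝ ∞ (fun x => (-c) • u x) := hu.const_smul (-c)
  have hD : Dif n (fun x => x + (-c) • u x) := dif_of_lip hcu hlt hl
  refine ⟨c, fun x => x + (-c) • u x, hc0, hc1, hD, fun x hx => ?_, fun x hx => ?_⟩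
  · show x + (-c) • u x = (1 - c) • x
    rw [hu1 x hx, sub_smul, one_smul, neg_smul, sub_eq_add_neg]
  · show x + (-c) • u x = x
    rw [hu2 x hx, smul_zero, add_zero]

/-- compression of a ball, with compact support -/
theorem compress (n : ℕ) (R r : ℝ) (hr : 0 < r) : ∃ (h : E n → E n) (R' : ℝ), Dif n h ∧
    (∀ x, R' ≤ ‖x‖ → h x = x) ∧ ∀ x, ‖x‖ ≤ R → ‖h x‖ ≤ r := by
  have hR1p : 0 < max R 1 := lt_max_of_lt_right one_pos
  obtain ⟨c, h, hc0, hc1, hD, hin, hout⟩ := step_ex n (max R 1) hR1p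
  have hq0 : 0 ≤ 1 - c := by linarith
  have hq1 : 1 - c < 1 := by linarith
  have hit : ∀ (N : ℕ) (x : E n), ‖x‖ ≤ max R 1 → h^[N] x = (1 - c) ^ N • x := by
    intro N
    induction N with
    | zero => intro x _; simp
    | succ N ih =>
      intro x hx
      rw [iterate_succ', comp_apply, ih x hx, hin, pow_succ', mul_smul]
      rw [norm_smul, norm_pow, Real.norm_of_nonneg hq0]
      exact (mul_le_of_le_one_left (norm_nonneg _) (pow_le_one₀ hq0 hq1.le)).trans hx
  obtain ⟨N, hN⟩ := exists_pow_lt_of_lt_one (div_pos hr hR1p) hq1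
  refine ⟨h^[N], max R 1 + 1, hD.iterate N, fun x hx => iterate_fixed (hout x hx) N,
    fun x hx => ?_⟩
  have hx1 : ‖x‖ ≤ max R 1 := hx.trans (le_max_left _ _)
  rw [hit N x hx1, norm_smul, norm_pow, Real.norm_of_nonneg hq0]
  rw [lt_div_iff₀ hR1p] at hN
  exact (mul_le_mul_of_nonneg_left hx1 (by positivity)).trans hN.le

/-- conjugation of a compactly supported diffeomorphism with an open embedding -/
theorem conj {g h : E n → E n} (hg : Injective g) (hgd : ∀ x, LD n g x) (hh : Dif n h) {R' : ℝ}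
    (hR' : ∀ x, R' ≤ ‖x‖ → h x = x) : ∃ D : E n → E n, Dif n D ∧ ∀ x, D (g x) = g (h x) := by
  classical
  set gi : E n → E n := fun z => if hz : z ∈ range g then hz.choose else z with hgi
  have hgi1 : ∀ x, gi (g x) = x := by
    intro x
    have hz : g x ∈ range g := mem_range_self x
    have : gi (g x) = hz.choose := dif_pos hz
    rw [this]
    exact hg hz.choose_spec
  set D : E n → E n := fun z => if z ∈ range g then g (h (gi z)) else z with hD
  have hD1 : ∀ x, D (g x) = g (h x) := by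
    intro x
    simp only [hD, mem_range_self, if_true, hgi1]
  have hD2 : ∀ z, z ∉ range g → D z = z := fun z hz => if_neg hz
  refine ⟨D, ⟨⟨?_, ?_⟩, ?_⟩, hD1⟩
  · intro z z' hzz
    by_cases hz : z ∈ range g
    · obtain ⟨x, rfl⟩ := hz
      by_cases hz' : z' ∈ range g
      · obtain ⟨x', rfl⟩ := hz'
        rw [hD1, hD1] at hzz
        rw [hh.1.1 (hg hzz)]
      · rw [hD1, hD2 z' hz'] at hzz
        exact absurd ⟨_, hzz⟩ hz'
    · by_cases hz' : z' ∈ range g
      · obtain ⟨x', rfl⟩ := hz'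
        rw [hD1, hD2 z hz] at hzz
        exact absurd ⟨_, hzz.symm⟩ hz
      · rwa [hD2 z hz, hD2 z' hz'] at hzz
  · intro z
    by_cases hz : z ∈ range g
    · obtain ⟨x, rfl⟩ := hz
      obtain ⟨y, rfl⟩ := hh.1.2 x
      exact ⟨g y, hD1 y⟩
    · exact ⟨z, hD2 z hz⟩
  · intro z
    by_cases hz : z ∈ range g
    · obtain ⟨x, rfl⟩ := hz
      have h1 : LD n gi (g x) := LD.inverse isOpen_univ (fun x _ => hgd x) (fun x _ => hgi1 x)
        (mem_univ x)
      have h2 : LD n (fun z => g (h (gi z))) (g x) := by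
        refine LD.comp_fun (g := g) (hgd _) (LD.comp_fun (g := h) (hh.2 _) h1)
      refine h2.congr ?_
      have ho : IsOpen (range g) := by
        rw [← image_univ]
        exact isOpen_image_of_LD isOpen_univ fun x _ => hgd x
      filter_upwards [ho.mem_nhds (mem_range_self x)] with w hw
      exact if_pos hw
    · have hc : IsClosed (g '' closedBall 0 R') := by
        refine ((isCompact_closedBall (0 : E n) R').image ?_).isClosed
        exact continuous_iff_continuousAt.2 fun x => (hgd x).continuousAt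
      have hz' : z ∈ (g '' closedBall 0 R')ᶜ := by
        rintro ⟨x, -, rfl⟩
        exact hz (mem_range_self x)
      refine (LD.id z).congr ?_
      filter_upwards [hc.isOpen_compl.mem_nhds hz'] with w hw
      by_cases hwr : w ∈ range g
      · obtain ⟨x, rfl⟩ := hwr
        rw [hD1, hR']
        by_contra hcon
        push Not at hcon
        exact hw ⟨x, by simpa using hcon.le, rfl⟩
      · exact hD2 w hwr

/-- Palais' extension theorem for maps tangent to the identity at the origin -/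
theorem ext0 (hG : StGerm) {g : E n → E n} (hg : Injective g) (hgd : ∀ x, LD n g x)
    (h0 : g 0 = 0) (hd : HasFDerivAt g (ContinuousLinearMap.id ℝ (E n)) 0) (R : ℝ) :
    ∃ G : E n → E n, Dif n G ∧ ∀ x, ‖x‖ ≤ R → G x = g x := by
  obtain ⟨P, -, hP1, hP2, hP3, -⟩ := hG n g
    (Eventually.of_forall fun y => (hgd y).contDiffAt) h0 hd 1 one_pos
  obtain ⟨r, hr, hrP⟩ := Metric.eventually_nhds_iff.1 hP3
  obtain ⟨h, R', hh, hh1, hh2⟩ := compress n R (r / 2) (by positivity)
  obtain ⟨D, hD, hD1⟩ := conj hg hgd hh hh1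
  obtain ⟨D', hD', hD'1, -⟩ := hD.inv
  refine ⟨fun x => D' (P (h x)), hD'.comp (Dif.comp ⟨hP1, hP2⟩ hh), fun x hx => ?_⟩
  have h1 : P (h x) = g (h x) := hrP (by
    rw [dist_zero_right]
    have := hh2 x hx
    linarith)
  show D' (P (h x)) = g x
  rw [h1, ← hD1, hD'1]

/-- Palais' extension theorem -/
theorem ext (hG : StGerm) : StExt := by
  intro n g hg hgd R
  obtain ⟨A, hA⟩ := (hgd 0).exists_equiv
  set k : E n → E n := fun x => A.symm (g x - g 0) with hk
  have hk1 : Injective k := by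
    intro x y hxy
    have h1 := A.symm.injective hxy
    exact hg (sub_left_injective h1)
  have hT : ∀ z : E n, LD n (fun y => y - g 0) z := fun z => by
    have := LD_add_const (-g 0) z
    simpa [sub_eq_add_neg] using this
  have hk2 : ∀ x, LD n k x := fun x =>
    LD.comp_fun (g := fun y => A.symm y) (LD_linear A.symm _)
      (LD.comp_fun (g := fun y => y - g 0) (hT _) (hgd x))
  have hk3 : k 0 = 0 := by simp [hk]
  have hk4 : HasFDerivAt k (ContinuousLinearMap.id ℝ (E n)) 0 := by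
    have h1 : HasFDerivAt (fun x => g x - g 0) (A : E n →L[ℝ] E n) 0 := hA.sub_const _
    have h2 := (A.symm : E n →L[ℝ] E n).hasFDerivAt.comp (0 : E n) h1
    refine h2.congr_fderiv ?_
    ext v
    simp
  obtain ⟨G, hG1, hG2⟩ := ext0 hG hk1 hk2 hk3 hk4 R
  refine ⟨fun x => A (G x) + g 0, ?_, fun x => ?_, fun x hx => ?_⟩
  · have h1 : Bijective (fun y : E n => y + g 0) := (Equiv.addRight (g 0)).bijective
    exact h1.comp (A.bijective.comp hG1.1)
  · exact LD.comp_fun (g := fun y => y + g 0) (LD_add_const (g 0) _)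
      (LD.comp_fun (g := fun y => A y) (LD_linear A _) (hG1.2 x))
  · show A (G x) + g 0 = g x
    rw [hG2 x hx]
    simp [hk]

end Pool.Agent.Y784.SH
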