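import Pool.Agent.Y522.Stm

/-!
# Collars of compact pieces of hypersurfaces (job SH-Collar)
-/

set_option autoImplicit false

open Set Filter Topology Metric Function MeasureTheory
open scoped Manifold ContDiff NNReal

noncomputable section

namespace Pool.Agent.Y784.SH

open Pool.Agent.Y522

variable {m : ℕ}

/-- the compact piece of the hyperplane -/
def K0 (m : ℕ) (R : ℝ) : Set (E (m + 1)) := (fun x : E m => cn 0 x) '' closedBall 0 R

theorem K0_compact (R : ℝ) : IsCompact (K0 m R) := by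
  refine (isCompact_closedBall _ _).image ?_
  exact continuous_cn.comp (by fun_prop : Continuous fun x : E m => ((0 : ℝ), x))

theorem tube {R : ℝ} {V : Set (E (m + 1))} (hV : V ∈ 𝓝ˢ (K0 m R)) :
    ∃ η : ℝ, 0 < η ∧ box m R η ⊆ V := by
  obtain ⟨O, hO, hKO, hOV⟩ := mem_nhdsSet_iff_exists.1 hV
  have hn : IsOpen ((fun p : ℝ × E m => cn p.1 p.2) ⁻¹' O) := hO.preimage continuous_cn
  obtain ⟨u, v, hu, hv, h1, h2, h3⟩ := generalized_tube_lemma (isCompact_singleton (x := (0 : ℝ)))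
    (isCompact_closedBall (0 : E m) R) hn (by
      rintro ⟨t, x⟩ ⟨ht, hx⟩
      rw [mem_singleton_iff] at ht
      subst ht
      exact hKO ⟨x, hx, rfl⟩)
  obtain ⟨ε, hε, hu2⟩ := Metric.isOpen_iff.1 hu 0 (h1 rfl)
  refine ⟨ε / 2, by positivity, fun z hz => hOV ?_⟩
  have h4 : ((z 0, tl z) : ℝ × E m) ∈ u ×ˢ v := by
    refine ⟨hu2 ?_, h2 ?_⟩
    · rw [mem_ball, dist_zero_right, Real.norm_eq_abs]
      exact hz.2.trans_lt (by linarith)
    · simpa using hz.1
  have h5 := h3 h4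
  simp only [mem_preimage, cn_tl] at h5
  exact h5

theorem sum_single {n : ℕ} (v : E n) : v = ∑ i, v i • (EuclideanSpace.single i (1 : ℝ) : E n) := by
  ext k
  simp [Pi.single_apply]

/-- the gradient of `ψ` at `z` -/
def grd {n : ℕ} (ψ : E n → ℝ) (z : E n) : E n :=
  ∑ i, fderiv ℝ ψ z (EuclideanSpace.single i (1 : ℝ)) • (EuclideanSpace.single i (1 : ℝ) : E n)

theorem grd_pos {n : ℕ} {ψ : E n → ℝ} {z : E n} (h : fderiv ℝ ψ z ≠ 0) :
    0 < fderiv ℝ ψ z (grd ψ z) := by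
  have e : fderiv ℝ ψ z (grd ψ z) =
      ∑ i, (fderiv ℝ ψ z (EuclideanSpace.single i (1 : ℝ))) ^ 2 := by
    unfold grd
    rw [map_sum]
    refine Finset.sum_congr rfl fun i _ => ?_
    rw [map_smul, smul_eq_mul, sq]
  rw [e]
  have h0 : 0 ≤ ∑ i, (fderiv ℝ ψ z (EuclideanSpace.single i (1 : ℝ))) ^ 2 :=
    Finset.sum_nonneg fun i _ => sq_nonneg _
  refine lt_of_le_of_ne h0 fun h1 => h ?_
  have h2 := (Finset.sum_eq_zero_iff_of_nonneg fun i _ => sq_nonneg _).1 h1.symm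
  ext v
  rw [sum_single v, map_sum]
  refine Finset.sum_eq_zero fun i hi => ?_
  have h3 : fderiv ℝ ψ z (EuclideanSpace.single i (1 : ℝ)) = 0 := by
    have := h2 i hi
    exact pow_eq_zero_iff (two_ne_zero) |>.1 this
  rw [map_smul, h3, smul_zero]

theorem grd_smooth {n : ℕ} {ψ : E n → ℝ} {z : E n} (h : ContDiffAt ℝ ∞ ψ z) :
    ContDiffAt ℝ ∞ (grd ψ) z := by
  have h1 : ContDiffAt ℝ ∞ (fderiv ℝ ψ) z := h.fderiv_right (m := ∞) (by simp)
  unfold grd
  refine ContDiffAt.sum fun i _ => ?_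
  exact (h1.clm_apply contDiffAt_const).smul contDiffAt_const

/-- the collar -/
def col (g : E m → E (m + 1)) (ψ : E (m + 1) → ℝ) (z : E (m + 1)) : E (m + 1) :=
  g (tl z) + z 0 • grd ψ (g (tl z))

theorem head_smooth (z : E (m + 1)) : ContDiffAt ℝ ∞ (fun z : E (m + 1) => z 0) z := by
  fun_prop

theorem col_smooth {g : E m → E (m + 1)} {ψ : E (m + 1) → ℝ} {z : E (m + 1)}
    (hg : ContDiffAt ℝ ∞ g (tl z)) (hψ : ContDiffAt ℝ ∞ ψ (g (tl z))) :
    ContDiffAt ℝ ∞ (col g ψ) z := by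
  have h1 : ContDiffAt ℝ ∞ (fun z : E (m + 1) => g (tl z)) z :=
    hg.comp z tl.contDiff.contDiffAt
  have h2 : ContDiffAt ℝ ∞ (fun z : E (m + 1) => grd ψ (g (tl z))) z :=
    ContDiffAt.comp (g := grd ψ) z (grd_smooth hψ) h1
  exact h1.add ((head_smooth z).smul h2)

theorem col_zero (g : E m → E (m + 1)) (ψ : E (m + 1) → ℝ) (x : E m) :
    col g ψ (cn 0 x) = g x := by
  simp [col]

/-- the head as a linear map -/
def hd0 : E (m + 1) →L[ℝ] ℝ := EuclideanSpace.proj (0 : Fin (m + 1))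

theorem hd0_apply (z : E (m + 1)) : (hd0 : E (m + 1) →L[ℝ] ℝ) z = z 0 := rfl

theorem col_deriv {g : E m → E (m + 1)} {ψ : E (m + 1) → ℝ} {x : E m}
    (hg : ContDiffAt ℝ ∞ g x) (hψ : ContDiffAt ℝ ∞ ψ (g x)) :
    HasFDerivAt (col g ψ) ((fderiv ℝ g x).comp tl + hd0.smulRight (grd ψ (g x))) (cn 0 x) := by
  have e0 : tl (cn 0 x) = x := tl_cn 0 x
  have h1 : HasFDerivAt (fun z : E (m + 1) => g (tl z)) ((fderiv ℝ g x).comp tl) (cn 0 x) := by
    have h2 : HasFDerivAt g (fderiv ℝ g x) (tl (cn 0 x)) := by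
      rw [e0]; exact (hg.differentiableAt (by simp)).hasFDerivAt
    exact h2.comp (cn 0 x) tl.hasFDerivAt
  have h3 : DifferentiableAt ℝ (fun z : E (m + 1) => grd ψ (g (tl z))) (cn 0 x) := by
    have h4 : DifferentiableAt ℝ (grd ψ) (g (tl (cn 0 x))) := by
      rw [e0]; exact (grd_smooth hψ).differentiableAt (by simp)
    exact DifferentiableAt.comp (g := grd ψ) (cn 0 x) h4 h1.differentiableAt
  have h5 : HasFDerivAt (fun z : E (m + 1) => z 0) hd0 (cn 0 x) := hd0.hasFDerivAt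
  have h6 := h5.smul h3.hasFDerivAt
  have h7 := h1.add h6
  refine h7.congr_fderiv ?_
  ext v
  simp [e0]

theorem collar : StCollar := by
  intro m g ψ N R hR hN hψ hg hinj hinj' hgN hψg hψ'
  have hgc : ∀ x, ‖x‖ ≤ R → ContDiffAt ℝ ∞ g x := fun x hx => (hg x hx).self_of_nhds
  have hK : ∀ z ∈ K0 m R, ∃ x : E m, ‖x‖ ≤ R ∧ cn 0 x = z := by
    rintro z ⟨x, hx, rfl⟩
    exact ⟨x, by simpa using hx, rfl⟩
  -- smoothness near `K0`
  have hsm : ∀ x : E m, ‖x‖ ≤ R → ∀ᶠ z in 𝓝 (cn 0 x : E (m + 1)),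
      ContDiffAt ℝ ∞ g (tl z) ∧ g (tl z) ∈ N := by
    intro x hx
    have h1 : ∀ᶠ y in 𝓝 x, ContDiffAt ℝ ∞ g y ∧ g y ∈ N :=
      (hg x hx).and ((hgc x hx).continuousAt.preimage_mem_nhds (hN.mem_nhds (hgN x hx)))
    have h2 : Tendsto (fun z : E (m + 1) => tl z) (𝓝 (cn 0 x)) (𝓝 x) := by
      have := (tl (m := m)).continuous.tendsto (cn 0 x)
      rwa [tl_cn] at this
    exact h2.eventually h1
  have hsm2 : ∀ x : E m, ‖x‖ ≤ R → ∀ᶠ z in 𝓝 (cn 0 x : E (m + 1)),
      ContDiffAt ℝ ∞ (col g ψ) z := by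
    intro x hx
    filter_upwards [hsm x hx] with z hz
    exact col_smooth hz.1 (hψ _ hz.2)
  -- the derivative
  have hLD : ∀ x : E m, ‖x‖ ≤ R → LD (m + 1) (col g ψ) (cn 0 x) := by
    intro x hx
    have hψx := hψ _ (hgN x hx)
    set A : E (m + 1) →L[ℝ] E (m + 1) :=
      (fderiv ℝ g x).comp tl + hd0.smulRight (grd ψ (g x)) with hA
    have hAinj : Injective A := by
      rw [injective_iff_map_eq_zero]
      intro v hv
      have h1 : fderiv ℝ g x (tl v) + v 0 • grd ψ (g x) = 0 := hv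
      have h2 : fderiv ℝ ψ (g x) (fderiv ℝ g x (tl v)) = 0 := by
        have h3 : HasFDerivAt (fun y => ψ (g y)) ((fderiv ℝ ψ (g x)).comp (fderiv ℝ g x)) x :=
          ((hψx.differentiableAt (by simp)).hasFDerivAt).comp x
            ((hgc x hx).differentiableAt (by simp)).hasFDerivAt
        have h4 : HasFDerivAt (fun y => ψ (g y)) (0 : E m →L[ℝ] ℝ) x :=
          (hasFDerivAt_const (0 : ℝ) x).congr_of_eventuallyEq (hψg x hx)
        have h5 := h3.unique h4
        exact congrArg (fun L => L (tl v)) h5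
      have h6 := congrArg (fderiv ℝ ψ (g x)) h1
      rw [map_add, h2, zero_add, map_smul, map_zero, smul_eq_mul] at h6
      have h7 : v 0 = 0 := by
        rcases mul_eq_zero.1 h6 with h | h
        · exact h
        · exact absurd h (grd_pos (hψ' x hx)).ne'
      rw [h7, zero_smul, add_zero] at h1
      have h8 : tl v = 0 := by
        apply hinj' x hx
        rw [h1, map_zero]
      rw [← cn_tl v, h7, h8]
      ext i
      refine Fin.cases ?_ (fun i => ?_) i <;> simp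
    let B : E (m + 1) ≃L[ℝ] E (m + 1) :=
      (LinearEquiv.ofInjectiveEndo (A : E (m + 1) →ₗ[ℝ] E (m + 1)) hAinj).toContinuousLinearEquiv
    have hB : (B : E (m + 1) →L[ℝ] E (m + 1)) = A := by
      ext1 v
      rfl
    refine LD_of_contDiffAt (hsm2 x hx) B ?_
    rw [hB]
    exact col_deriv (hgc x hx) hψx
  -- good neighbourhoods
  have hin : InjOn (col g ψ) (K0 m R) := by
    rintro _ ⟨x, hx, rfl⟩ _ ⟨y, hy, rfl⟩ hxy
    simp only [col_zero] at hxy
    rw [hinj hx hy hxy]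
  obtain ⟨t, ht, hti⟩ := hin.exists_mem_nhdsSet (K0_compact R)
    (fun z hz => by
      obtain ⟨x, hx, rfl⟩ := hK z hz
      exact (hLD x hx).continuousAt)
    (fun z hz => by
      obtain ⟨x, hx, rfl⟩ := hK z hz
      exact (hLD x hx).eventually_injOn)
  have hW : {z : E (m + 1) | LD (m + 1) (col g ψ) z ∧ col g ψ z ∈ N ∧
      0 < fderiv ℝ ψ (col g ψ z) (grd ψ (g (tl z)))} ∈ 𝓝ˢ (K0 m R) := by
    rw [mem_nhdsSet_iff_forall]
    intro z hz
    obtain ⟨x, hx, rfl⟩ := hK z hz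
    have hc : ContinuousAt (col g ψ) (cn 0 x) := (hLD x hx).continuousAt
    have h1 : ∀ᶠ z in 𝓝 (cn 0 x : E (m + 1)), col g ψ z ∈ N := by
      apply hc.preimage_mem_nhds
      rw [col_zero]
      exact hN.mem_nhds (hgN x hx)
    have h2 : ContinuousAt (fun z : E (m + 1) =>
        fderiv ℝ ψ (col g ψ z) (grd ψ (g (tl z)))) (cn 0 x) := by
      have h3 : ContinuousAt (fderiv ℝ ψ) (col g ψ (cn 0 x)) := by
        rw [col_zero]
        exact ((hψ _ (hgN x hx)).fderiv_right (m := 0) (by simp)).continuousAt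
      have h4 : ContinuousAt (fun z : E (m + 1) => fderiv ℝ ψ (col g ψ z)) (cn 0 x) :=
        h3.comp hc
      have h5 : ContinuousAt (fun z : E (m + 1) => g (tl z)) (cn 0 x) := by
        have h6 : ContinuousAt g (tl (cn 0 x)) := by
          rw [tl_cn]; exact (hgc x hx).continuousAt
        exact h6.comp tl.continuous.continuousAt
      have h7 : ContinuousAt (fun z : E (m + 1) => grd ψ (g (tl z))) (cn 0 x) := by
        have h8 : ContinuousAt (grd ψ) (g (tl (cn 0 x))) := by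
          rw [tl_cn]; exact (grd_smooth (hψ _ (hgN x hx))).continuousAt
        exact ContinuousAt.comp (f := fun z : E (m + 1) => g (tl z)) h8 h5
      exact h4.clm_apply h7
    have h3 : ∀ᶠ z in 𝓝 (cn 0 x : E (m + 1)),
        0 < fderiv ℝ ψ (col g ψ z) (grd ψ (g (tl z))) := by
      refine h2.eventually (lt_mem_nhds ?_)
      beta_reduce
      rw [col_zero, tl_cn]
      exact grd_pos (hψ' x hx)
    filter_upwards [(hLD x hx).eventually, h1, h3] with z hz1 hz2 hz3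
    exact ⟨hz1, hz2, hz3⟩
  obtain ⟨η, hη, hbox⟩ := tube (Filter.inter_mem ht hW)
  refine ⟨η, hη, col g ψ, fun x _ => col_zero g ψ x, hti.mono fun z hz => (hbox hz).1,
    fun z hz => ⟨(hbox hz).2.1, (hbox hz).2.2.1⟩, fun z hz => ?_⟩
  -- the sign
  set x : E m := tl z with hx
  have hxR : ‖x‖ ≤ R := hz.1
  have hmem : ∀ s ∈ Icc (-η) η, cn s x ∈ box m R η := by
    intro s hs
    refine ⟨by rw [tl_cn]; exact hxR, ?_⟩
    rw [cn_zero]
    exact abs_le.2 hs
  set f : ℝ → ℝ := fun s => ψ (col g ψ (cn s x)) with hf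
  have hfd : ∀ s ∈ Icc (-η) η, HasDerivAt f
      (fderiv ℝ ψ (col g ψ (cn s x)) (grd ψ (g x))) s := by
    intro s hs
    have h1 := (hbox (hmem s hs)).2
    have h2 : HasDerivAt (fun s : ℝ => col g ψ (cn s x)) (grd ψ (g x)) s := by
      have h3 : (fun s : ℝ => col g ψ (cn s x)) = fun s => g x + s • grd ψ (g x) := by
        funext s
        simp [col]
      rw [h3]
      simpa using ((hasDerivAt_id s).smul_const (grd ψ (g x))).const_add (g x)
    exact ((hψ _ h1.2.1).differentiableAt (by simp)).hasFDerivAt.comp_hasDerivAt s h2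
  have hmono : StrictMonoOn f (Icc (-η) η) := by
    refine strictMonoOn_of_deriv_pos (convex_Icc _ _)
      (fun s hs => (hfd s hs).continuousAt.continuousWithinAt) fun s hs => ?_
    rw [interior_Icc] at hs
    have hs' : s ∈ Icc (-η) η := ⟨hs.1.le, hs.2.le⟩
    rw [(hfd s hs').deriv]
    have := (hbox (hmem s hs')).2.2.2
    rwa [tl_cn] at this
  have hf0 : f 0 = 0 := by
    show ψ (col g ψ (cn 0 x)) = 0
    rw [col_zero]
    exact (hψg x hxR).self_of_nhds
  have hfz : f (z 0) = ψ (col g ψ z) := by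
    show ψ (col g ψ (cn (z 0) (tl z))) = _
    rw [cn_tl]
  have h0mem : (0 : ℝ) ∈ Icc (-η) η := ⟨by linarith, hη.le⟩
  have hzmem : z 0 ∈ Icc (-η) η := abs_le.1 hz.2
  rw [← hfz]
  refine ⟨fun h => ?_, fun h => ?_⟩
  · rw [← hf0]
    exact hmono h0mem hzmem h
  · rw [← hf0]
    exact hmono hzmem h0mem h

end Pool.Agent.Y784.SH
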